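import Pool.Agent.W397.EO.Stm

set_option autoImplicit false

namespace Pool.Agent.W816.EO.ORD

open Finset

variable {V : Type} [Fintype V] [DecidableEq V]

/-- number of orders for which `S` is the set of the elements of `N` before `v` -/
def cnt (v : V) (N S : Finset V) : ℕ :=
  (Finset.univ.filter (fun σ : V ≃ Fin (Fintype.card V) =>
      N.filter (fun u => σ u < σ v) = S)).card

theorem filter_map (τ : Equiv.Perm V) (v : V) (N : Finset V) (σ : V ≃ Fin (Fintype.card V)) :
    (N.map τ.toEmbedding).filter (fun u => (τ.symm.trans σ) u < (τ.symm.trans σ) (τ v))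
      = (N.filter (fun u => σ u < σ v)).map τ.toEmbedding := by
  ext u
  simp only [mem_filter, mem_map, Equiv.coe_toEmbedding, Equiv.trans_apply,
    Equiv.symm_apply_apply]
  constructor
  · rintro ⟨⟨w, hw, rfl⟩, h⟩
    refine ⟨w, ⟨hw, ?_⟩, rfl⟩
    simpa using h
  · rintro ⟨w, ⟨hw, h⟩, rfl⟩
    refine ⟨⟨w, hw, rfl⟩, ?_⟩
    simpa using h

theorem cnt_perm (τ : Equiv.Perm V) (v : V) (N S : Finset V) :
    cnt v N S = cnt (τ v) (N.map τ.toEmbedding) (S.map τ.toEmbedding) := by
  unfold cnt
  apply Finset.card_bij (fun σ _ => τ.symm.trans σ)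
  · intro σ hσ
    simp only [mem_filter, mem_univ, true_and] at hσ ⊢
    rw [filter_map, hσ]
  · intro σ _ σ' _ h
    ext u
    have := congrArg (fun e : V ≃ Fin (Fintype.card V) => e (τ u)) h
    simpa using congrArg Fin.val this
  · intro σ hσ
    simp only [mem_filter, mem_univ, true_and] at hσ
    refine ⟨τ.trans σ, ?_, ?_⟩
    · simp only [mem_filter, mem_univ, true_and]
      have e : σ = τ.symm.trans (τ.trans σ) := by
        ext u; simp
      rw [e, filter_map] at hσ
      exact Finset.map_injective _ hσ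
    · ext u; simp

theorem map_swap_of_mem (N : Finset V) (x y : V) (hx : x ∈ N) (hy : y ∈ N) :
    N.map (Equiv.swap x y).toEmbedding = N := by
  ext u
  simp only [mem_map, Equiv.coe_toEmbedding]
  constructor
  · rintro ⟨w, hw, rfl⟩
    by_cases h1 : w = x
    · subst h1; rw [Equiv.swap_apply_left]; exact hy
    · by_cases h2 : w = y
      · subst h2; rw [Equiv.swap_apply_right]; exact hx
      · rw [Equiv.swap_apply_of_ne_of_ne h1 h2]; exact hw
  · intro hu
    refine ⟨Equiv.swap x y u, ?_, by simp⟩
    by_cases h1 : u = x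
    · subst h1; rw [Equiv.swap_apply_left]; exact hy
    · by_cases h2 : u = y
      · subst h2; rw [Equiv.swap_apply_right]; exact hx
      · rw [Equiv.swap_apply_of_ne_of_ne h1 h2]; exact hu

theorem map_swap_insert (S : Finset V) (x y : V) (hx : x ∈ S) (hy : y ∉ S) :
    S.map (Equiv.swap x y).toEmbedding = insert y (S.erase x) := by
  ext u
  simp only [mem_map, Equiv.coe_toEmbedding, mem_insert, mem_erase]
  constructor
  · rintro ⟨w, hw, rfl⟩
    by_cases h1 : w = x
    · subst h1; rw [Equiv.swap_apply_left]; exact Or.inl rfl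
    · have h2 : w ≠ y := by rintro rfl; exact hy hw
      rw [Equiv.swap_apply_of_ne_of_ne h1 h2]; exact Or.inr ⟨h1, hw⟩
  · rintro (rfl | ⟨h1, hu⟩)
    · exact ⟨x, hx, Equiv.swap_apply_left x u⟩
    · have h2 : u ≠ y := by rintro rfl; exact hy hu
      exact ⟨u, hu, Equiv.swap_apply_of_ne_of_ne h1 h2⟩

theorem cnt_swap (v : V) (N S : Finset V) (hv : v ∉ N) (hS : S ⊆ N) (x y : V) (hx : x ∈ S)
    (hy : y ∈ N) (hyS : y ∉ S) : cnt v N S = cnt v N (insert y (S.erase x)) := by
  rw [cnt_perm (Equiv.swap x y) v N S, map_swap_of_mem N x y (hS hx) hy,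
    map_swap_insert S x y hx hyS, Equiv.swap_apply_of_ne_of_ne]
  · rintro rfl; exact hv (hS hx)
  · rintro rfl; exact hv hy

theorem cnt_eq (v : V) (N S' : Finset V) (hv : v ∉ N) (hS' : S' ⊆ N) : ∀ (m : ℕ) (S : Finset V),
    S ⊆ N → S.card = S'.card → (S \ S').card = m → cnt v N S = cnt v N S' := by
  intro m
  induction m with
  | zero =>
    intro S _ hc h0
    have : S ⊆ S' := Finset.sdiff_eq_empty_iff_subset.1 (Finset.card_eq_zero.1 h0)
    rw [Finset.eq_of_subset_of_card_le this hc.ge]
  | succ m ih =>
    intro S hS hc h0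
    obtain ⟨x, hx⟩ : (S \ S').Nonempty := Finset.card_pos.1 (by omega)
    have h1 : (S' \ S).card = (S \ S').card := (Finset.card_sdiff_comm hc).symm
    obtain ⟨y, hy⟩ : (S' \ S).Nonempty := Finset.card_pos.1 (by omega)
    rw [mem_sdiff] at hx hy
    rw [cnt_swap v N S hv hS x y hx.1 (hS' hy.1) hy.2]
    apply ih
    · intro u hu
      rw [mem_insert, mem_erase] at hu
      rcases hu with rfl | hu
      · exact hS' hy.1
      · exact hS hu.2
    · rw [Finset.card_insert_of_notMem (by rw [mem_erase]; exact fun h => hy.2 h.2),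
        Finset.card_erase_of_mem hx.1, ← hc]
      have := Finset.card_pos.2 ⟨x, hx.1⟩
      omega
    · have e : (insert y (S.erase x)) \ S' = (S \ S').erase x := by
        ext u
        simp only [mem_sdiff, mem_insert, mem_erase]
        constructor
        · rintro ⟨rfl | ⟨h2, h3⟩, h4⟩
          · exact absurd hy.1 h4
          · exact ⟨h2, h3, h4⟩
        · rintro ⟨h2, h3, h4⟩
          exact ⟨Or.inr ⟨h2, h3⟩, h4⟩
      rw [e, Finset.card_erase_of_mem (by rw [mem_sdiff]; exact hx)]
      omega

/-- number of orders for which exactly `k` elements of `W` are before `w` -/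
def R (W : Finset V) (k : ℕ) (w : V) : ℕ :=
  (Finset.univ.filter (fun σ : V ≃ Fin (Fintype.card V) =>
      (W.filter (fun u => σ u < σ w)).card = k)).card

theorem R_eq (W : Finset V) (k : ℕ) (v w : V) (hv : v ∈ W) (hw : w ∈ W) :
    R W k v = R W k w := by
  unfold R
  set τ : Equiv.Perm V := Equiv.swap v w with hτ
  have hτv : τ v = w := Equiv.swap_apply_left v w
  have hτW : W.map τ.toEmbedding = W := map_swap_of_mem W v w hv hw
  apply Finset.card_bij (fun σ _ => τ.symm.trans σ)
  · intro σ hσ
    simp only [mem_filter, mem_univ, true_and] at hσ ⊢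
    have := filter_map τ v W σ
    rw [hτv, hτW] at this
    rw [this, Finset.card_map, hσ]
  · intro σ _ σ' _ h
    ext u
    have := congrArg (fun e : V ≃ Fin (Fintype.card V) => e (τ u)) h
    simpa using congrArg Fin.val this
  · intro σ hσ
    simp only [mem_filter, mem_univ, true_and] at hσ
    refine ⟨τ.trans σ, ?_, ?_⟩
    · simp only [mem_filter, mem_univ, true_and]
      have e : τ.symm.trans (τ.trans σ) = σ := by
        ext u; simp
      have := filter_map τ v W (τ.trans σ)
      rw [e, hτv, hτW] at this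
      rw [this, Finset.card_map] at hσ
      exact hσ
    · ext u; simp

theorem rank_lt (W : Finset V) (σ : V ≃ Fin (Fintype.card V)) (w w' : V) (hw : w ∈ W)
    (h : σ w < σ w') : (W.filter (fun u => σ u < σ w)).card < (W.filter (fun u => σ u < σ w')).card := by
  apply Finset.card_lt_card
  rw [Finset.ssubset_iff_of_subset]
  · exact ⟨w, by simp [hw, h], by simp⟩
  · intro u hu
    rw [mem_filter] at hu ⊢
    exact ⟨hu.1, hu.2.trans h⟩

theorem one_rank (W : Finset V) (σ : V ≃ Fin (Fintype.card V)) (k : ℕ) (hk : k < W.card) :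
    (W.filter (fun w => (W.filter (fun u => σ u < σ w)).card = k)).card = 1 := by
  have hinj : Set.InjOn (fun w => (W.filter (fun u => σ u < σ w)).card) (W : Set V) := by
    intro w hw w' hw' h
    by_contra hne
    have hne' : σ w ≠ σ w' := fun e => hne (σ.injective e)
    rcases lt_or_gt_of_ne hne' with h1 | h1
    · exact absurd h (rank_lt W σ w w' hw h1).ne
    · exact absurd h (rank_lt W σ w' w hw' h1).ne'
  have himg : W.image (fun w => (W.filter (fun u => σ u < σ w)).card) = Finset.range W.card := by
    apply Finset.eq_of_subset_of_card_le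
    · intro j hj
      rw [mem_image] at hj
      obtain ⟨w, hw, rfl⟩ := hj
      rw [mem_range]
      apply Finset.card_lt_card
      rw [Finset.ssubset_iff_of_subset (Finset.filter_subset _ _)]
      exact ⟨w, hw, by simp⟩
    · rw [Finset.card_range, Finset.card_image_of_injOn hinj]
  have hmem : k ∈ W.image (fun w => (W.filter (fun u => σ u < σ w)).card) := by
    rw [himg, mem_range]; exact hk
  rw [mem_image] at hmem
  obtain ⟨w, hw, hwk⟩ := hmem
  rw [Finset.card_eq_one]
  refine ⟨w, ?_⟩
  ext u
  rw [mem_filter, mem_singleton]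
  constructor
  · rintro ⟨hu, huk⟩
    exact hinj hu hw (huk.trans hwk.symm)
  · rintro rfl
    exact ⟨hw, hwk⟩

theorem sum_R (W : Finset V) (k : ℕ) (hk : k < W.card) :
    ∑ w ∈ W, R W k w = (Fintype.card V).factorial := by
  have hR : ∀ w ∈ W, R W k w = ∑ σ : V ≃ Fin (Fintype.card V),
      (if (W.filter (fun u => σ u < σ w)).card = k then 1 else 0) := by
    intro w _
    unfold R
    rw [Finset.card_filter]
  rw [Finset.sum_congr rfl hR, Finset.sum_comm]
  have : ∀ σ : V ≃ Fin (Fintype.card V),
      ∑ w ∈ W, (if (W.filter (fun u => σ u < σ w)).card = k then 1 else 0) = 1 := by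
    intro σ
    rw [← Finset.card_filter]
    exact one_rank W σ k hk
  rw [Finset.sum_congr rfl (fun σ _ => this σ)]
  simp only [Finset.sum_const, smul_eq_mul, mul_one, Finset.card_univ]
  rw [Fintype.card_equiv (Fintype.equivFin V)]

theorem R_sum (v : V) (N : Finset V) (hv : v ∉ N) (k : ℕ) :
    R (insert v N) k v = ∑ S ∈ N.powersetCard k, cnt v N S := by
  unfold R cnt
  have e : ∀ σ : V ≃ Fin (Fintype.card V), (insert v N).filter (fun u => σ u < σ v)
      = N.filter (fun u => σ u < σ v) := by
    intro σ
    rw [Finset.filter_insert, if_neg (lt_irrefl _)]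
  simp_rw [e]
  rw [Finset.card_eq_sum_card_fiberwise (f := fun σ : V ≃ Fin (Fintype.card V) =>
    N.filter (fun u => σ u < σ v)) (t := N.powersetCard k)]
  · apply Finset.sum_congr rfl
    intro S hS
    rw [Finset.mem_powersetCard] at hS
    congr 1
    ext σ
    simp only [mem_filter, mem_univ, true_and]
    constructor
    · rintro ⟨_, h⟩; exact h
    · intro h; exact ⟨by rw [h]; exact hS.2, h⟩
  · intro σ hσ
    simp only [Finset.coe_filter, mem_univ, true_and, Set.mem_setOf_eq] at hσ
    rw [Finset.mem_coe, Finset.mem_powersetCard]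
    exact ⟨Finset.filter_subset _ _, hσ⟩

theorem main : Pool.Agent.W397.EO.S_ORD := by
  intro V _ _ v N S hv hS
  have hk : S.card < (insert v N).card := by
    rw [Finset.card_insert_of_notMem hv]
    have := Finset.card_le_card hS
    omega
  have h1 := sum_R (insert v N) S.card hk
  have h2 : ∑ w ∈ insert v N, R (insert v N) S.card w
      = (N.card + 1) * R (insert v N) S.card v := by
    rw [Finset.sum_congr rfl (fun w hw => R_eq (insert v N) S.card w v hw
      (Finset.mem_insert_self v N))]
    rw [Finset.sum_const, Finset.card_insert_of_notMem hv, smul_eq_mul]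
  have h3 : R (insert v N) S.card v = N.card.choose S.card * cnt v N S := by
    rw [R_sum v N hv]
    have h6 : ∀ S' ∈ N.powersetCard S.card, cnt v N S' = cnt v N S := by
      intro S' hS'
      rw [Finset.mem_powersetCard] at hS'
      exact cnt_eq v N S hv hS _ S' hS'.1 hS'.2 rfl
    rw [Finset.sum_congr rfl h6, Finset.sum_const, Finset.card_powersetCard, smul_eq_mul]
  rw [h2, h3] at h1
  have h4 : ((N.card + 1) * (N.card.choose S.card * cnt v N S) : ℕ) =
      ((Fintype.card V).factorial : ℕ) := h1
  have h5 := congrArg (Nat.cast : ℕ → ℝ) h4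
  push_cast at h5
  show (cnt v N S : ℝ) * _ = _
  rw [← h5]
  ring

end Pool.Agent.W816.EO.ORD
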